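import Mathlib
import Pool.Agent.Z702.Defs
import Pool.Agent.N973.ND.Stm
import Pool.Agent.N973.ND.Tr

/-!
# Project SL (helper818), second part: the Selmer group attached to the isogeny `E_D → E'_D`

`WZ (-42 D) (-7 D²)` is the curve `E'_D : y² = x³ - 42 D x² - 7 D² x`; its isogenous curve is
`y² = x³ + 84 D x² + 1792 D² x`, where `1792 = 7 * 16²`. Statements of the parts.
-/

set_option autoImplicit false

open scoped Classical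

namespace Pool.Agent.N818.SL

open Finset
open Pool.Agent.Z702 (LocI)
open Pool.Agent.Y703.CQ (nr)
open Pool.Agent.N973.ND (Pr Zk Wk Gd kd ty m7)
open Pool.Agent.N973.NT (bb)

/-- there is a point `(X, Y)` of `Y² = X (X² + 84 D X + 1792 D²)` with `X ∈ d K*²`, or `d` is a
square or seven times a square -/
def LL (K : Type) [Field K] (D d : ℤ) : Prop :=
  IsSquare (d : K) ∨ IsSquare (7 * (d : K)) ∨ LocI K (-42 * D) (-7 * D ^ 2) d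

/-- SL-N2: necessity at two -/
def S_N2 : Prop := ∀ D d : ℤ, D % 4 = 1 → Squarefree d → LL ℚ_[2] D d → ¬ (2 : ℤ) ∣ d

/-- SL-S2: sufficiency at two -/
def S_S2 : Prop := ∀ D d : ℤ, D % 4 = 1 → ¬ (2 : ℤ) ∣ d → LocI ℚ_[2] (-42 * D) (-7 * D ^ 2) d

/-- SL-NP: necessity at the odd primes other than seven -/
def S_NP : Prop := ∀ (p : ℕ) [Fact p.Prime] (D d : ℤ), p ≠ 2 → p ≠ 7 → Squarefree D →
  Squarefree d → LL ℚ_[p] D d →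
  (¬ (p : ℤ) ∣ D → ¬ (p : ℤ) ∣ d) ∧
  (¬ IsSquare (-7 : ZMod p) → ¬ (p : ℤ) ∣ d) ∧
  (¬ IsSquare (-7 : ZMod p) → (p : ℤ) ∣ D → p % 4 = 3 → IsSquare ((d : ℤ) : ZMod p)) ∧
  (IsSquare (-7 : ZMod p) → (p : ℤ) ∣ D → p % 4 = 1 → ¬ (p : ℤ) ∣ d →
    IsSquare ((d : ℤ) : ZMod p)) ∧
  (p % 4 = 1 → ∀ D' d' : ℤ, D = p * D' → d = p * d' → ∀ t : ZMod p, t ^ 2 = -7 →
    IsSquare (((D' * d' : ℤ) : ZMod p) * t))

/-- SL-NR: necessity at the real place -/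
def S_NR : Prop := ∀ D d : ℤ, 0 < D → d ≠ 0 → LL ℝ D d → 0 < d

/-- SL-SP: sufficiency at the odd primes -/
def S_SP : Prop := ∀ (p : ℕ) [Fact p.Prime] (D d : ℤ), p ≠ 2 →
  (p ≠ 7 → ¬ (p : ℤ) ∣ D → ¬ (p : ℤ) ∣ d → LocI ℚ_[p] (-42 * D) (-7 * D ^ 2) d) ∧
  (D ≠ 0 → ¬ (p : ℤ) ∣ d → IsSquare ((d : ℤ) : ZMod p) →
    LocI ℚ_[p] (-42 * D) (-7 * D ^ 2) d) ∧
  (D ≠ 0 → ¬ IsSquare (-7 : ZMod p) → p % 4 = 1 → ¬ (p : ℤ) ∣ d →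
    LocI ℚ_[p] (-42 * D) (-7 * D ^ 2) d) ∧
  (D ≠ 0 → p % 4 = 3 → p ≠ 7 → IsSquare (-7 : ZMod p) → ¬ (p : ℤ) ∣ d →
    LocI ℚ_[p] (-42 * D) (-7 * D ^ 2) d) ∧
  (p ≠ 7 → ∀ D' d' : ℤ, D = p * D' → d = p * d' → ¬ (p : ℤ) ∣ D' → ¬ (p : ℤ) ∣ d' →
    (∃ t : ZMod p, t ^ 2 = -7 ∧ IsSquare (((D' * d' : ℤ) : ZMod p) * t)) →
    LocI ℚ_[p] (-42 * D) (-7 * D ^ 2) d)

/-- the product of the primes of `J` is in the Selmer group -/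
def CJ (S J : Finset ℕ) : Prop := J ⊆ S ∧ (∀ p ∈ J, m7 p = 1) ∧
  (∀ p ∈ S, ty p = 1 → IsSquare (((∏ q ∈ J, q : ℕ) : ℕ) : ZMod p)) ∧
  (∀ p ∈ S, ty p = 2 → p ∉ J → IsSquare (((∏ q ∈ J, q : ℕ) : ℕ) : ZMod p)) ∧
  ∀ p ∈ J, ty p = 2 → ∀ t : ZMod p, t ^ 2 = -7 →
    IsSquare ((((∏ q ∈ S.erase p, q) * ∏ q ∈ J.erase p, q : ℕ) : ZMod p) * t)

/-- SL-LA: the condition in terms of the linear forms -/
def S_LA : Prop := ∀ S : Finset ℕ, (∀ p ∈ S, Pr p) → ∀ J : Finset ℕ, J ⊆ S →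
  (CJ S J ↔ Zk (univ.filter fun i : S => m7 (i : ℕ) = 1)
    (univ.filter fun i : S => ty (i : ℕ) = 2 ∨ ty (i : ℕ) = 1)
    (fun i j : S => nr (j : ℕ) (i : ℕ)) (fun i : S => bb (i : ℕ))
    (fun i : S => if (i : ℕ) ∈ J then 1 else 0))

/-- SL-LB: if the transpose is injective, then the number of the solutions -/
def S_LB : Prop := ∀ (V : Type) [Fintype V] (Sp Pc : Finset V) (N : V → V → ZMod 2)
  (b : V → ZMod 2), (∀ x, Wk Sp Pc N b x → ∀ j, x j = 0) →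
  Nat.card {s : V → ZMod 2 // Zk Sp Pc N b s} * 2 ^ Pc.card = 2 ^ Sp.card

/-- SL-LC: the number of the solutions for the good sets -/
def S_LC : Prop := S_LA → S_LB → ∀ S : Finset ℕ, (∀ p ∈ S, Pr p) → Gd Pool.Agent.N973.NT.AA bb S →
  ∃ n : ℕ, (n : ℤ) = kd S ∧ (S.powerset.filter fun J => CJ S J).card = 2 ^ n

end Pool.Agent.N818.SL
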