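import Pool.Agent.Z488.Coc
import Pool.Agent.Y210.Z702.LOT

/-!
# The cocycles `χ_d T`: additivity in `d`, and the class of `d = a² - 4 b` up to squares
-/

set_option autoImplicit false
set_option linter.unusedSectionVars false

namespace Pool.Agent.N818.SL

open WeierstrassCurve Pool.Agent.TH841.SH.D
open Pool.Agent.Z702 (WZ T0 coc ns0)
open Pool.Agent.Z488 (QB exists_root ap_sq coc_eq T0_add)
open Pool.Agent.Y210.Z702 (act_some' some_congr wa1 wa2 wa3 wa4 wa6)

attribute [-instance] DivisionRing.toRatAlgebra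

variable {a b : ℤ}

lemma coc_add (hb : b ≠ 0) {x y c m : ℤ} (hx : x ≠ 0) (hy : y ≠ 0) (hm : m ≠ 0)
    (hxy : x * y = c * m ^ 2) : coc (a := a) hb c = coc hb x + coc hb y := by
  obtain ⟨s, hs⟩ := exists_root x
  obtain ⟨t, ht⟩ := exists_root y
  have haQ : (x : QB) ≠ 0 := by exact_mod_cast hx
  have hbQ : (y : QB) ≠ 0 := by exact_mod_cast hy
  have hmQ : (m : QB) ≠ 0 := by exact_mod_cast hm
  have hs0 : s ≠ 0 := by
    rintro rfl
    apply haQ
    rw [← hs]
    ring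
  have ht0 : t ≠ 0 := by
    rintro rfl
    apply hbQ
    rw [← ht]
    ring
  have hne : ∀ x : QB, x ≠ 0 → -x ≠ x := by
    intro x hx h
    apply hx
    have h1 : (2 : QB) * x = 0 := by linear_combination -h
    rcases mul_eq_zero.1 h1 with h2 | h2
    · exact absurd h2 two_ne_zero
    · exact h2
  have hu : (s * t / m) ^ 2 = (c : QB) := by
    have h1 : (x : QB) * y = c * (m : QB) ^ 2 := by exact_mod_cast hxy
    rw [div_pow, mul_pow, hs, ht, h1]
    field_simp
  have hu0 : s * t / m ≠ 0 := div_ne_zero (mul_ne_zero hs0 ht0) hmQ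
  funext σ
  show coc (a := a) hb c σ = coc (a := a) hb x σ + coc (a := a) hb y σ
  have hσ : σ (s * t / m) = σ s * σ t / m := by
    rw [map_div₀, map_mul, map_intCast]
  rcases ap_sq hs σ with h1 | h1 <;> rcases ap_sq ht σ with h2 | h2
  · rw [h1, h2] at hσ
    rw [(coc_eq hb hs σ).1 h1, (coc_eq hb ht σ).1 h2, (coc_eq hb hu σ).1 hσ, add_zero]
  · rw [h1, h2] at hσ
    have h3 : σ (s * t / m) ≠ s * t / m := by
      rw [hσ]
      have h4 := hne _ hu0
      intro h5
      exact h4 ((by ring : -(s * t / (m : QB)) = s * -t / m).trans h5)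
    rw [(coc_eq hb hs σ).1 h1, (coc_eq hb ht σ).2 (by rw [h2]; exact hne t ht0),
      (coc_eq hb hu σ).2 h3, zero_add]
  · rw [h1, h2] at hσ
    have h3 : σ (s * t / m) ≠ s * t / m := by
      rw [hσ]
      have h4 := hne _ hu0
      intro h5
      exact h4 ((by ring : -(s * t / (m : QB)) = -s * t / m).trans h5)
    rw [(coc_eq hb hs σ).2 (by rw [h1]; exact hne s hs0), (coc_eq hb ht σ).1 h2,
      (coc_eq hb hu σ).2 h3, add_zero]
  · rw [h1, h2, neg_mul_neg] at hσ
    rw [(coc_eq hb hs σ).2 (by rw [h1]; exact hne s hs0),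
      (coc_eq hb ht σ).2 (by rw [h2]; exact hne t ht0), (coc_eq hb hu σ).1 hσ, T0_add]

lemma coc_one (hb : b ≠ 0) : coc (a := a) hb 1 = 0 := by
  funext σ
  have h1 : (1 : QB) ^ 2 = ((1 : ℤ) : QB) := by norm_num
  exact (coc_eq hb h1 σ).1 (map_one σ)

lemma ns_root (hb : b ≠ 0) {x δ : QB} (hδ : δ ≠ 0) (h1 : x ^ 2 + (a : QB) * x + (b : QB) = 0)
    (h2 : 2 * x + (a : QB) = δ) :
    ((WZ a b).baseChange QB).toAffine.Nonsingular x 0 := by
  have hbQ : (b : QB) ≠ 0 := by exact_mod_cast hb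
  have hx0 : x ≠ 0 := by
    rintro rfl
    apply hbQ
    linear_combination h1
  rw [Affine.nonsingular_iff', Affine.equation_iff', wa1, wa2, wa3, wa4, wa6]
  refine ⟨by linear_combination -x * h1, Or.inl ?_⟩
  have e : (0 : QB) * 0 - (3 * x ^ 2 + 2 * (a : QB) * x + (b : QB)) = -(x * δ) := by
    rw [← h2]
    linear_combination -h1
  rw [e]
  exact neg_ne_zero.2 (mul_ne_zero hx0 hδ)

/-- the point `(x, 0)` -/
noncomputable def mkR {x : QB} (h : ((WZ a b).baseChange QB).toAffine.Nonsingular x 0) : Pt (WZ a b) QB :=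
  Affine.Point.some x 0 h

lemma mkR_congr {x x' : QB} (h : ((WZ a b).baseChange QB).toAffine.Nonsingular x 0)
    (h' : ((WZ a b).baseChange QB).toAffine.Nonsingular x' 0) (hx : x = x') : mkR h = mkR h' := by
  subst hx
  rfl

lemma act_mkR (σ : Gal ℚ) {x : QB} (h : ((WZ a b).baseChange QB).toAffine.Nonsingular x 0)
    (h' : ((WZ a b).baseChange QB).toAffine.Nonsingular (σ x) 0) :
    act (WZ a b) σ.toAlgHom (mkR h) = mkR h' := by
  unfold mkR
  rw [act_some']
  exact some_congr _ _ _ rfl (map_zero σ)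

lemma add_root (hb : b ≠ 0) {x x' : QB} (hx : x ≠ 0) (hx' : x' = -(a : QB) - x)
    (h : ((WZ a b).baseChange QB).toAffine.Nonsingular x 0)
    (h' : ((WZ a b).baseChange QB).toAffine.Nonsingular x' 0) :
    T0 (a := a) hb QB + mkR h = mkR h' := by
  have h1 : (0 : QB) ≠ x := fun h2 => hx h2.symm
  let _ : DecidableEq QB := Classical.decEq QB
  have hsl : ((WZ a b).baseChange QB).toAffine.slope 0 x 0 0 = 0 := by
    rw [Affine.slope_of_X_ne h1, sub_zero, zero_div]
  refine Eq.trans (@Affine.Point.add_of_X_ne QB _ ((WZ a b).baseChange QB).toAffine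
    (Classical.decEq QB) 0 x 0 0 (ns0 hb QB) h h1) ?_
  refine some_congr _ _ _ ?_ ?_
  · rw [hsl, Affine.addX, wa1, wa2, hx']
    ring
  · rw [hsl, Affine.addY, Affine.negAddY, Affine.negY, Affine.addX, wa1, wa2, wa3]
    ring

/-- the class of `a² - 4 b` is trivial -/
theorem coc_cob (hb : b ≠ 0) {d m : ℤ} (hd : d ≠ 0) (hm : m ≠ 0)
    (h : d * (a ^ 2 - 4 * b) = m ^ 2) : IsCob (WZ a b) (coc hb d) := by
  obtain ⟨s, hs⟩ := exists_root d
  have hdQ : (d : QB) ≠ 0 := by exact_mod_cast hd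
  have hmQ : (m : QB) ≠ 0 := by exact_mod_cast hm
  have hs0 : s ≠ 0 := by
    rintro rfl
    apply hdQ
    rw [← hs]
    ring
  have hQ : (d : QB) * ((a : QB) ^ 2 - 4 * b) = (m : QB) ^ 2 := by exact_mod_cast h
  obtain ⟨δ, hδ⟩ : ∃ δ : QB, δ = m / s := ⟨_, rfl⟩
  have hδ0 : δ ≠ 0 := by
    rw [hδ]
    exact div_ne_zero hmQ hs0
  have hδ2 : δ ^ 2 = (a : QB) ^ 2 - 4 * b := by
    rw [hδ, div_pow, hs, div_eq_iff hdQ, ← hQ]
    ring
  have r1 : ((-(a : QB) + δ) / 2) ^ 2 + (a : QB) * ((-(a : QB) + δ) / 2) + (b : QB) = 0 := by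
    linear_combination (1 / 4 : QB) * hδ2
  have r2 : ((-(a : QB) - δ) / 2) ^ 2 + (a : QB) * ((-(a : QB) - δ) / 2) + (b : QB) = 0 := by
    linear_combination (1 / 4 : QB) * hδ2
  have n1 := ns_root hb hδ0 r1 (by ring)
  have n2 := ns_root hb (neg_ne_zero.2 hδ0) r2 (by ring)
  have hx0 : (-(a : QB) + δ) / 2 ≠ 0 := by
    intro h0
    rw [h0] at r1
    have hbQ : (b : QB) ≠ 0 := by exact_mod_cast hb
    apply hbQ
    linear_combination r1
  refine ⟨mkR n1, fun σ => ?_⟩
  have e1 : σ ((-(a : QB) + δ) / 2) = (-(a : QB) + σ δ) / 2 := by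
    rw [map_div₀, map_add, map_neg, map_intCast, map_ofNat]
  have e2 : σ δ = m / σ s := by rw [hδ, map_div₀, map_intCast]
  rcases ap_sq hs σ with h1 | h1
  · have e3 : σ ((-(a : QB) + δ) / 2) = (-(a : QB) + δ) / 2 := by
      rw [e1, e2, h1, ← hδ]
    rw [(coc_eq hb hs σ).1 h1, act_mkR σ n1 (by rw [e3]; exact n1), mkR_congr _ n1 e3, sub_self]
  · have hne : σ s ≠ s := by
      rw [h1]
      intro h5
      apply hs0
      have h6 : (2 : QB) * s = 0 := by linear_combination -h5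
      exact (mul_eq_zero.1 h6).resolve_left two_ne_zero
    have e3 : σ ((-(a : QB) + δ) / 2) = (-(a : QB) - δ) / 2 := by
      rw [e1, e2, h1, div_neg, ← hδ]
      ring
    rw [(coc_eq hb hs σ).2 hne, act_mkR σ n1 (by rw [e3]; exact n2), mkR_congr _ n2 e3,
      ← add_root hb hx0 (x' := (-(a : QB) - δ) / 2) (by ring) n1 n2, add_sub_cancel_right]

end Pool.Agent.N818.SL
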