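import Pool.Agent.R432.Iso
import Pool.Agent.Z702.Defs
import Pool.Agent.Z488.Coc
import Pool.Agent.TH841.SH.Tr
import Pool.Agent.TH841.SH.Grp
import Pool.Agent.TH841.SH.Kum
import Pool.Agent.TH841.SH.Alg2

/-!
# The 2-primary part of `Ш(E')` for `E' : y² = x³ + a x² + b x`, when `Ш(E)[2] = 0`,
# `E : y² = x³ - 2 a x² + (a² - 4 b) x`

Adapted from `Pool.Agent.Y676.IS.Tr`.
-/

set_option autoImplicit false
set_option linter.unusedSectionVars false

namespace Pool.Agent.N818.SL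

open WeierstrassCurve

open Pool.Agent.TH841.SH.D

open Pool.Agent.Z702 (WZ T0 coc ns0)

open Pool.Agent.R432 (NH KDat)

variable {W W' : WeierstrassCurve ℚ}

/-- the push forward of a cochain -/
noncomputable def psh (ψ : NH W W') (c : Coch W) : Coch W' := fun σ => ψ.f _ (c σ)

lemma psh_coc (ψ : NH W W') {c : Coch W} (h : IsCoc W c) : IsCoc W' (psh ψ c) := by
  refine ⟨h.1.comp _, fun σ τ => ?_⟩
  change ψ.f _ (c (σ * τ)) = ψ.f _ (c σ) + act W' σ.toAlgHom (ψ.f _ (c τ))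
  rw [h.2, map_add, ψ.nat]

lemma psh_cob (ψ : NH W W') {c : Coch W} (h : IsCob W c) : IsCob W' (psh ψ c) := by
  obtain ⟨P, hP⟩ := h
  refine ⟨ψ.f _ P, fun σ => ?_⟩
  change ψ.f _ (c σ) = _
  rw [hP, map_sub, ψ.nat]

lemma psh_loc (ψ : NH W W') {K : Type} [Field K] [Algebra ℚ K] {c : Coch W}
    (h : LocTriv W K c) : LocTriv W' K (psh ψ c) := by
  intro ι
  obtain ⟨P, hP⟩ := h ι
  refine ⟨ψ.f _ P, fun τ σ hτ => ?_⟩
  change act W' ι (ψ.f _ (c σ)) = _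
  rw [ψ.nat, hP τ σ hτ, map_sub, ψ.nat]

/-- the push forward on the cocycles -/
noncomputable def shaC (ψ : NH W W') : shaCoc W →+ shaCoc W' where
  toFun c := ⟨psh ψ c.1, psh_coc ψ c.2.1, fun p _ => psh_loc ψ (c.2.2.1 p), psh_loc ψ c.2.2.2⟩
  map_zero' := Subtype.ext (by
    funext σ
    exact map_zero (ψ.f _))
  map_add' c c' := Subtype.ext (by
    funext σ
    exact map_add (ψ.f _) _ _)

/-- the push forward on the Tate-Shafarevich groups -/
noncomputable def shaM (ψ : NH W W') : Sha W →+ Sha W' :=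
  QuotientAddGroup.map ((cob W).addSubgroupOf (shaCoc W)) ((cob W').addSubgroupOf (shaCoc W'))
    (shaC ψ) (fun _ h => psh_cob ψ h)

/-- the class of a cocycle -/
noncomputable def cls (W : WeierstrassCurve ℚ) (c : shaCoc W) : Sha W :=
  QuotientAddGroup.mk' ((cob W).addSubgroupOf (shaCoc W)) c

lemma cls_surj (x : Sha W) : ∃ c, cls W c = x := QuotientAddGroup.mk'_surjective _ x

lemma cls_add (c c' : shaCoc W) : cls W (c + c') = cls W c + cls W c' := rfl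

lemma cls_zero_iff (c : shaCoc W) : cls W c = 0 ↔ IsCob W c.1 := by
  have h1 : cls W c = 0 ↔ c ∈ (QuotientAddGroup.mk' ((cob W).addSubgroupOf (shaCoc W))).ker :=
    Iff.rfl
  rw [h1, QuotientAddGroup.ker_mk', AddSubgroup.mem_addSubgroupOf]
  rfl

lemma cls_eq {c c' : shaCoc W} (h : IsCob W (c.1 - c'.1)) : cls W c = cls W c' := by
  have h1 : cls W (c - c') = 0 := (cls_zero_iff _).2 h
  have h2 : cls W (c - c') = cls W c - cls W c' := rfl
  rw [h2] at h1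
  exact sub_eq_zero.1 h1

lemma sha_cls (ψ : NH W W') (c : shaCoc W) : shaM ψ (cls W c) = cls W' (shaC ψ c) := rfl

lemma cob_shaCoc {b : Coch W} (hb : IsCob W b) : b ∈ shaCoc W := by
  obtain ⟨P, hP⟩ := hb
  rw [sha_iff]
  have h1 : b = _ := funext hP
  rw [h1]
  exact ⟨⟨Pool.Agent.TH841.SH.lc_cob W P, Pool.Agent.TH841.SH.coc_cob W P⟩,
    (Pool.Agent.TH841.SH.evLoc_cob W P).1, (Pool.Agent.TH841.SH.evLoc_cob W P).2⟩

section

attribute [-instance] DivisionRing.toRatAlgebra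

/-- division by two over an algebraically closed field -/
lemma div2 {a b : ℤ} (hb : b ≠ 0) (hab : a ^ 2 - 4 * b ≠ 0)
    (P : Pt (WZ a b) (AlgebraicClosure ℚ)) : ∃ Q, Q + Q = P := by
  classical
  have hinj : Function.Injective (algebraMap ℚ (AlgebraicClosure ℚ)) :=
    (algebraMap ℚ (AlgebraicClosure ℚ)).injective
  obtain ⟨d, hd⟩ := IsAlgClosed.exists_pow_nat_eq
    (algebraMap ℚ (AlgebraicClosure ℚ) ((a : ℚ) ^ 2 - 4 * b)) (n := 2) (by norm_num)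
  have hd' : d ^ 2 = (algebraMap ℚ (AlgebraicClosure ℚ) a) ^ 2 -
      4 * algebraMap ℚ (AlgebraicClosure ℚ) b := by
    rw [hd, map_sub, map_pow, map_mul, map_ofNat]
  obtain ⟨A, hA⟩ : ∃ A, A = algebraMap ℚ (AlgebraicClosure ℚ) a := ⟨_, rfl⟩
  obtain ⟨B, hB⟩ : ∃ B, B = algebraMap ℚ (AlgebraicClosure ℚ) b := ⟨_, rfl⟩
  rw [← hA, ← hB] at hd'
  have hp : ((-A + d) / 2) * ((-A - d) / 2) = B := by
    linear_combination (-1 / 4) * hd'
  have hR : Pool.Agent.TH841.SH.IsR ((WZ a b).baseChange (AlgebraicClosure ℚ)) 0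
      ((-A + d) / 2) ((-A - d) / 2) := by
    refine ⟨?_, ?_, ?_, ?_, ?_⟩
    · show algebraMap ℚ (AlgebraicClosure ℚ) 0 = 0
      rw [map_zero]
    · show algebraMap ℚ (AlgebraicClosure ℚ) a = _
      rw [← hA]
      ring
    · show algebraMap ℚ (AlgebraicClosure ℚ) 0 = 0
      rw [map_zero]
    · show algebraMap ℚ (AlgebraicClosure ℚ) b = _
      rw [← hB, ← hp]
      ring
    · show algebraMap ℚ (AlgebraicClosure ℚ) 0 = _
      rw [map_zero]
      ring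
  have hB0 : B ≠ 0 := by
    rw [hB]
    intro h
    apply hb
    have := hinj (h.trans (map_zero _).symm)
    exact_mod_cast this
  have n1 : (0 : AlgebraicClosure ℚ) ≠ (-A + d) / 2 := by
    intro h
    apply hB0
    rw [← hp, ← h, zero_mul]
  have n2 : (0 : AlgebraicClosure ℚ) ≠ (-A - d) / 2 := by
    intro h
    apply hB0
    rw [← hp, ← h, mul_zero]
  have n3 : (-A + d) / 2 ≠ (-A - d) / 2 := by
    intro h
    have hd0 : d = 0 := by linear_combination h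
    rw [hd0] at hd
    have h2 : algebraMap ℚ (AlgebraicClosure ℚ) ((a : ℚ) ^ 2 - 4 * b) = 0 := by
      rw [← hd]
      ring
    have h3 : ((a : ℚ) ^ 2 - 4 * b) = 0 := hinj (h2.trans (map_zero _).symm)
    apply hab
    exact_mod_cast h3
  obtain ⟨Q, hQ⟩ := hR.div two_ne_zero n1 n2 n3 P
  exact ⟨Q, hQ.symm⟩

lemma T0_ne {a b : ℤ} (h : b ≠ 0) (L : Type) [Field L] [Algebra ℚ L] :
    (T0 h L : Pt (WZ a b) L) ≠ 0 :=
  Affine.Point.some_ne_zero _

/-- a cocycle with values `0`, `T` is of the form `χ_d T` -/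
lemma coc_of {a b : ℤ} (h : b ≠ 0) {c : Coch (WZ a b)} (hc : IsCoc (WZ a b) c)
    (hv : ∀ σ, c σ = 0 ∨ c σ = T0 h (AlgebraicClosure ℚ)) :
    ∃ d : ℤ, Squarefree d ∧ c = coc h d := by
  classical
  have hfix : ∀ (σ τ : Gal ℚ), act (WZ a b) σ.toAlgHom (c τ) = c τ := by
    intro σ τ
    rcases hv τ with h1 | h1
    · rw [h1, map_zero]
    · rw [h1]
      exact Pool.Agent.Z488.act_T0 h σ
  have hadd : ∀ σ τ, c (σ * τ) = c σ + c τ := fun σ τ => by rw [hc.2, hfix]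
  have hTT : T0 (a := a) h (AlgebraicClosure ℚ) + T0 h (AlgebraicClosure ℚ) = 0 :=
    Pool.Agent.Z488.T0_add h
  have hT0 := T0_ne (a := a) h (AlgebraicClosure ℚ)
  let χ : Gal ℚ → Bool := (fun P : Pt (WZ a b) (AlgebraicClosure ℚ) => decide (P ≠ 0)) ∘ c
  have x0 : ∀ σ, c σ = 0 → χ σ = false := fun σ hσ => by
    show decide (c σ ≠ 0) = false
    rw [decide_eq_false_iff_not, not_not]
    exact hσ
  have x1 : ∀ σ, c σ = T0 h (AlgebraicClosure ℚ) → χ σ = true := fun σ hσ => by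
    show decide (c σ ≠ 0) = true
    rw [decide_eq_true_iff, hσ]
    exact hT0
  have hm : ∀ σ τ, χ (σ * τ) = xor (χ σ) (χ τ) := by
    intro σ τ
    have e := hadd σ τ
    rcases hv σ with h1 | h1
    · rcases hv τ with h2 | h2
      · rw [h1, h2, add_zero] at e
        rw [x0 _ h1, x0 _ h2, x0 _ e]
        rfl
      · rw [h1, h2, zero_add] at e
        rw [x0 _ h1, x1 _ h2, x1 _ e]
        rfl
    · rcases hv τ with h2 | h2
      · rw [h1, h2, add_zero] at e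
        rw [x1 _ h1, x0 _ h2, x1 _ e]
        rfl
      · rw [h1, h2] at e
        rw [x1 _ h1, x1 _ h2, x0 _ (e.trans hTT)]
        rfl
  obtain ⟨e, he, hes⟩ := Pool.Agent.TH841.SH.kum χ (hc.1.comp _) hm
  refine ⟨e, he, ?_⟩
  obtain ⟨s, hs⟩ := Pool.Agent.Z488.exists_root e
  funext σ
  have h1 := hes s hs σ
  rcases hv σ with h2 | h2
  · exact h2.trans ((Pool.Agent.Z488.coc_eq h hs σ).1 (h1.2 (x0 _ h2))).symm
  · refine h2.trans ((Pool.Agent.Z488.coc_eq h hs σ).2 fun h4 => ?_).symm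
    have h5 := h1.1 h4
    rw [x1 _ h2] at h5
    exact absurd h5 (by decide)

/-- no 2-primary part -/
lemma sub_pow' {G : Type} [AddCommGroup G] (h : ∀ x : G, x + x = 0 → x = 0) (j : ℕ) (x : G)
    (hx : (2 ^ j) • x = 0) : x = 0 := by
  induction j with
  | zero => simpa using hx
  | succ j ih =>
    apply ih
    apply h
    rw [← two_nsmul, ← mul_smul]
    rw [pow_succ, mul_comm] at hx
    exact hx

/-- the isogeny from `y² = x³ + a x² + b x` to `y² = x³ - 2 a x² + (a² - 4 b) x` -/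
lemma dat1 {a b : ℤ} (hb : b ≠ 0) (hab : a ^ 2 - 4 * b ≠ 0) :
    KDat (WZ a b) (WZ (-2 * a) (a ^ 2 - 4 * b)) (a : ℚ) (b : ℚ) (((-2 * a : ℤ)) : ℚ)
      ((a ^ 2 - 4 * b : ℤ) : ℚ) 1 where
  hW := rfl
  hW' := rfl
  dat :=
    { hb := by exact_mod_cast hb
      hb' := by exact_mod_cast hab
      hu := one_ne_zero
      e1 := by push_cast; ring
      e2 := by push_cast; ring }

/-- the dual isogeny -/
lemma dat2 {a b : ℤ} (hb : b ≠ 0) (hab : a ^ 2 - 4 * b ≠ 0) :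
    KDat (WZ (-2 * a) (a ^ 2 - 4 * b)) (WZ a b) (((-2 * a : ℤ)) : ℚ)
      ((a ^ 2 - 4 * b : ℤ) : ℚ) (a : ℚ) (b : ℚ) 2 where
  hW := rfl
  hW' := rfl
  dat :=
    { hb := by exact_mod_cast hab
      hb' := by exact_mod_cast hb
      hu := two_ne_zero
      e1 := by push_cast; ring
      e2 := by push_cast; ring }

/-- every class killed by a power of two is the class of a cocycle `χ_d T` -/
theorem prim {a b : ℤ} (hb : b ≠ 0) (hab : a ^ 2 - 4 * b ≠ 0)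
    (hSha : ∀ x : Sha (WZ (-2 * a) (a ^ 2 - 4 * b)), x + x = 0 → x = 0) (x : Sha (WZ a b)) (j : ℕ)
    (hx : (2 ^ j) • x = 0) :
    ∃ d : ℤ, Squarefree d ∧ ∃ hd : coc hb d ∈ shaCoc (WZ a b),
      cls (WZ a b) ⟨coc hb d, hd⟩ = x := by
  obtain ⟨ψ, hψ⟩ : ∃ ψ, ψ = NH.iso (dat1 hb hab) := ⟨_, rfl⟩
  obtain ⟨φ, hφ⟩ : ∃ φ, φ = NH.iso (dat2 hb hab) := ⟨_, rfl⟩
  have h2 : ∀ P : Pt (WZ (-2 * a) (a ^ 2 - 4 * b)) (AlgebraicClosure ℚ),
      ψ.f _ (φ.f _ P) = P + P := by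
    intro P
    rw [hψ, hφ]
    exact Pool.Agent.R432.isoH_dbl _ (dat2 hb hab) (dat1 hb hab) (by norm_num) P
  have h3 : ∀ P : Pt (WZ a b) (AlgebraicClosure ℚ), ψ.f _ P = 0 →
      P = 0 ∨ P = T0 hb (AlgebraicClosure ℚ) := by
    intro P hP
    rw [hψ] at hP
    rcases Pool.Agent.R432.isoH_ker _ (dat1 hb hab) P hP with h1 | ⟨h0, h1⟩
    · exact Or.inl h1
    · exact Or.inr h1
  have hz : shaM ψ x = 0 := by
    apply sub_pow' hSha j
    rw [← map_nsmul, hx, map_zero]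
  obtain ⟨c, rfl⟩ := cls_surj x
  rw [sha_cls, cls_zero_iff] at hz
  obtain ⟨Q, hQ⟩ := hz
  have hab' : (-2 * a) ^ 2 - 4 * (a ^ 2 - 4 * b) ≠ 0 := by
    have : (-2 * a) ^ 2 - 4 * (a ^ 2 - 4 * b) = 16 * b := by ring
    rw [this]
    exact mul_ne_zero (by norm_num) hb
  obtain ⟨R, hR⟩ := div2 hab hab' Q
  have hP : ψ.f _ (φ.f _ R) = Q := by rw [h2, hR]
  obtain ⟨P, hPd⟩ : ∃ P, P = φ.f (AlgebraicClosure ℚ) R := ⟨_, rfl⟩
  rw [← hPd] at hP
  let c' : Coch (WZ a b) := fun σ => c.1 σ - (act (WZ a b) σ.toAlgHom P - P)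
  have hd : IsCob (WZ a b) (c.1 - c') := by
    refine ⟨P, fun σ => ?_⟩
    change c.1 σ - (c.1 σ - (act (WZ a b) σ.toAlgHom P - P)) = _
    abel
  have hsub : c' = c.1 - (c.1 - c') := by abel
  have hbc : c.1 - c' ∈ shaCoc (WZ a b) := cob_shaCoc hd
  have hc' : c' ∈ shaCoc (WZ a b) := by
    rw [hsub]
    exact sub_mem c.2 hbc
  have hv : ∀ σ, c' σ = 0 ∨ c' σ = T0 hb (AlgebraicClosure ℚ) := by
    intro σ
    apply h3
    change ψ.f _ (c.1 σ - (act (WZ a b) σ.toAlgHom P - P)) = 0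
    have h4 : ψ.f _ (c.1 σ) = act (WZ (-2 * a) (a ^ 2 - 4 * b)) σ.toAlgHom Q - Q := hQ σ
    rw [map_sub, map_sub, ← ψ.nat, hP, h4, sub_self]
  obtain ⟨d, hsq, hcd⟩ := coc_of hb hc'.1 hv
  rw [hcd] at hc'
  refine ⟨d, hsq, hc', ?_⟩
  apply cls_eq
  have e1 : coc hb d - c.1 = -(c.1 - c') := by
    rw [← hcd]
    abel
  rw [show ((⟨coc hb d, hc'⟩ : shaCoc (WZ a b)) : Coch (WZ a b)) = coc hb d from rfl, e1]
  exact cob_neg hd

end

end Pool.Agent.N818.SL
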