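import Mathlib
import Pool.Agent.Z702.Defs
import Pool.Agent.Y210.Z702.LOT

/-!
# The local version of the coboundary criterion for `y² = x³ + a x² + b x`

Adapted from `Pool.Agent.Y497.IS.LCB` (full 2-torsion on the isogenous curve).
-/

set_option autoImplicit false
set_option linter.style.haveILetI false
set_option linter.unusedSectionVars false

namespace Pool.Agent.N818.SL

open WeierstrassCurve Pool.Agent.TH841.SH.D
open Pool.Agent.Z702 (WZ LocI T0 coc ns0)
open Pool.Agent.Y210.Z702 (act_some' some_congr wa1 wa2 wa3 wa4 wa6 hne)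

attribute [-instance] DivisionRing.toRatAlgebra

/-- the algebraic closure of the rational numbers -/
abbrev QQ : Type := AlgebraicClosure ℚ

lemma isAlgAC : Algebra.IsAlgebraic ℚ QQ := AlgebraicClosure.isAlgebraic ℚ

attribute [local instance] isAlgAC

lemma normAC : Normal ℚ QQ := IsAlgClosure.normal ℚ QQ

attribute [local instance] normAC

section

variable {L : Type} [Field L] [Algebra ℚ L]

/-- the equation of the curve -/
lemma eqn {a b : ℤ} {x y : L} (h : ((WZ a b).baseChange L).toAffine.Nonsingular x y) :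
    y ^ 2 = x ^ 3 + (a : L) * x ^ 2 + (b : L) * x := by
  have h1 := (Affine.nonsingular_iff _ _).1 h |>.1
  rw [Affine.equation_iff, wa1, wa2, wa3, wa4, wa6] at h1
  linear_combination h1

/-- a point of the curve -/
noncomputable def pt {a b : ℤ} {x y : L} (h : ((WZ a b).baseChange L).toAffine.Nonsingular x y) :
    Pt (WZ a b) L := Affine.Point.some x y h

/-- the sum of `(x, y)` and `(0, 0)` -/
lemma add_T {a b : ℤ} (hb : b ≠ 0) {x y x' y' : L}
    (h : ((WZ a b).baseChange L).toAffine.Nonsingular x y)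
    (h' : ((WZ a b).baseChange L).toAffine.Nonsingular x' y') (hx : x ≠ 0)
    (he : pt h' = pt h + T0 (a := a) hb L) :
    x' = (b : L) / x ∧ y' = - ((b : L) * y / x ^ 2) := by
  have h1 : pt h + T0 (a := a) hb L =
      @HAdd.hAdd _ _ _ (@instHAdd _ (@Affine.Point.instAdd L _ ((WZ a b).baseChange L).toAffine
        (Classical.decEq L))) (Affine.Point.some x y h) (Affine.Point.some 0 0 (ns0 hb L)) := rfl
  rw [h1, @Affine.Point.add_of_X_ne _ _ _ (Classical.decEq L) _ _ _ _ _ _ hx] at he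
  have he := (Affine.Point.some.injEq _ _ _ _ _ _).mp he
  have e0 := eqn h
  obtain ⟨he1, he2⟩ := he
  rw [@Affine.slope_of_X_ne _ _ _ (Classical.decEq L) _ _ _ _ hx, Affine.addX, wa1, wa2] at he1
  rw [@Affine.slope_of_X_ne _ _ _ (Classical.decEq L) _ _ _ _ hx, Affine.addY, Affine.negY,
    Affine.negAddY, Affine.addX, wa1, wa2, wa3] at he2
  constructor
  · rw [he1, sub_zero, sub_zero, sub_zero, zero_mul, add_zero]
    field_simp
    linear_combination e0
  · rw [he2, sub_zero, sub_zero]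
    field_simp
    linear_combination (-x ^ 2 * y) * e0

end

lemma coc_pos {a b : ℤ} (h : b ≠ 0) (d : ℤ) (σ : Gal ℚ)
    (hh : ∃ s : QQ, s ^ 2 = (d : QQ) ∧ σ s ≠ s) : coc (a := a) h d σ = T0 h QQ := by
  unfold coc
  exact if_pos hh

lemma coc_neg {a b : ℤ} (h : b ≠ 0) (d : ℤ) (σ : Gal ℚ)
    (hh : ¬ ∃ s : QQ, s ^ 2 = (d : QQ) ∧ σ s ≠ s) : coc (a := a) h d σ = 0 := by
  unfold coc
  exact if_neg hh

section

variable {K : Type} [Field K] [Algebra ℚ K]

/-- an element fixed by all the automorphisms lies in the base field -/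
lemma fixm [CharZero K] (x : AlgebraicClosure K) (h : ∀ σ : Gal K, σ x = x) :
    ∃ y : K, algebraMap K (AlgebraicClosure K) y = x := by
  haveI : Algebra.IsAlgebraic K (AlgebraicClosure K) := AlgebraicClosure.isAlgebraic K
  haveI : IsGalois K (AlgebraicClosure K) :=
    { to_isSeparable := inferInstance
      to_normal := IsAlgClosure.normal K (AlgebraicClosure K) }
  have := InfiniteGalois.mem_bot_iff_fixed (k := K) (K := AlgebraicClosure K) x
  rw [IntermediateField.mem_bot] at this
  exact this.2 h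

/-- restriction of automorphisms -/
lemma exists_res (ι : QQ →ₐ[ℚ] AlgebraicClosure K) (τ : Gal K) :
    ∃ σ : Gal ℚ, ∀ x, τ (ι x) = ι (σ x) := by
  letI : Algebra QQ (AlgebraicClosure K) := ι.toRingHom.toAlgebra
  haveI : @IsScalarTower ℚ QQ (AlgebraicClosure K) Algebra.toSMul Algebra.toSMul
      Algebra.toSMul :=
    IsScalarTower.of_algebraMap_eq fun x => (ι.commutes x).symm
  let χ : AlgebraicClosure K ≃ₐ[ℚ] AlgebraicClosure K := τ.restrictScalars ℚ
  refine ⟨χ.restrictNormal QQ, fun x => ?_⟩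
  exact (χ.restrictNormal_commutes QQ x).symm

end

/-- **the local coboundary criterion** -/
theorem lcb (a b : ℤ) (hb : b ≠ 0) (d : ℤ) (hd : d ≠ 0) (K : Type) [Field K] [Algebra ℚ K]
    (hloc : LocTriv (WZ a b) K (coc hb d)) :
    IsSquare (d : K) ∨ IsSquare ((d : K) * ((a : K) ^ 2 - 4 * (b : K))) ∨ LocI K a b d := by
  haveI : CharZero K := algebraRat.charZero K
  haveI : CharZero (AlgebraicClosure K) := algebraRat.charZero _
  set Ω : Type := AlgebraicClosure K with hΩ
  let ι : QQ →ₐ[ℚ] Ω := IsAlgClosed.lift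
  obtain ⟨P, hP⟩ := hloc ι
  choose res hres using exists_res (K := K) ι
  have hP' : ∀ τ : Gal K, act (WZ a b) ι (coc hb d (res τ)) =
      act (WZ a b) (τ.toAlgHom.restrictScalars ℚ) P - P := fun τ => hP τ (res τ) (hres τ)
  obtain ⟨s', hs'⟩ : ∃ s : QQ, s ^ 2 = (d : QQ) := IsAlgClosed.exists_pow_nat_eq _ two_pos
  obtain ⟨s, hs_def⟩ : ∃ s : Ω, s = ι s' := ⟨_, rfl⟩
  have hs : s ^ 2 = (d : Ω) := by
    rw [hs_def, ← map_pow, hs', map_intCast]
  have hd' : (d : Ω) ≠ 0 := by exact_mod_cast hd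
  have hs0 : s ≠ 0 := by
    rintro rfl
    apply hd'
    rw [← hs]
    ring
  have hsσ : ∀ σ : Gal K, σ s = s ∨ σ s = -s := by
    intro σ
    apply sq_eq_sq_iff_eq_or_eq_neg.1
    rw [← map_pow, hs]
    simp
  have hiff : ∀ τ : Gal K, τ s = s ↔ res τ s' = s' := by
    intro τ
    rw [hs_def, hres τ s']
    exact ι.injective.eq_iff
  have hcoc : ∀ σ : Gal ℚ, (σ s' = s' → coc (a := a) hb d σ = 0) ∧
      (σ s' ≠ s' → coc (a := a) hb d σ = T0 hb QQ) := by
    intro σ
    constructor
    · intro h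
      apply coc_neg
      rintro ⟨s1, hs1, hne⟩
      apply hne
      rcases sq_eq_sq_iff_eq_or_eq_neg.1 (hs1.trans hs'.symm) with h1 | h1
      · rw [h1, h]
      · rw [h1, map_neg, h]
    · intro h
      exact coc_pos _ _ _ ⟨s', hs', h⟩
  have hTT : act (WZ a b) ι (T0 hb QQ) = T0 hb Ω := by
    unfold T0
    rw [act_some']
    exact some_congr _ _ _ (map_zero ι) (map_zero ι)
  -- if all the automorphisms fix `s`
  have hsq : (∀ σ : Gal K, σ s = s) → IsSquare (d : K) := by
    intro h
    obtain ⟨y, hy⟩ := fixm s h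
    refine ⟨y, ?_⟩
    apply (algebraMap K Ω).injective
    rw [map_mul, hy, ← pow_two, hs]
    simp
  have hT0 : (T0 hb Ω : Pt (WZ a b) Ω) ≠ 0 := by
    intro h
    exact Affine.Point.some_ne_zero _ h
  have hact0 : ∀ σ : Gal K, σ s = s → act (WZ a b) (σ.toAlgHom.restrictScalars ℚ) P = P := by
    intro σ h
    have h1 := hP' σ
    rw [(hcoc _).1 ((hiff σ).1 h), map_zero] at h1
    exact (sub_eq_zero.1 h1.symm)
  have hact1 : ∀ σ : Gal K, σ s ≠ s →
      act (WZ a b) (σ.toAlgHom.restrictScalars ℚ) P = P + T0 hb Ω := by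
    intro σ h
    have h1 := hP' σ
    rw [(hcoc _).2 (fun h2 => h ((hiff σ).2 h2)), hTT] at h1
    rw [h1]
    abel
  have hfix0 : (∀ σ : Gal K, act (WZ a b) (σ.toAlgHom.restrictScalars ℚ) P = P) →
      IsSquare (d : K) := by
    intro h
    apply hsq
    intro σ
    by_contra hne
    have h1 := hact1 σ hne
    rw [h σ] at h1
    exact hT0 (left_eq_add.1 h1)
  rcases P with _ | ⟨x, y, hxy⟩
  · left
    apply hfix0
    intro σ
    exact map_zero _
  by_cases hx : x = 0
  · left
    apply hfix0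
    intro σ
    subst hx
    have e0 := eqn hxy
    have hy : y = 0 := by
      have : y ^ 2 = 0 := by rw [e0]; ring
      exact pow_eq_zero_iff two_ne_zero |>.1 this
    subst hy
    rw [act_some']
    exact some_congr _ _ _ (map_zero σ) (map_zero σ)
  have e0 := eqn hxy
  have hc : (b : Ω) ≠ 0 := by exact_mod_cast hb
  have f0 : ∀ σ : Gal K, σ s = s → σ x = x ∧ σ y = y := by
    intro σ h
    have h1 := hact0 σ h
    rw [act_some'] at h1
    exact (Affine.Point.some.injEq _ _ _ _ _ _).mp h1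
  have f1 : ∀ σ : Gal K, σ s ≠ s → σ x = (b : Ω) / x ∧
      σ y = - ((b : Ω) * y / x ^ 2) := by
    intro σ h
    have h1 := hact1 σ h
    rw [act_some'] at h1
    exact add_T hb _ _ hx h1
  right
  by_cases hy : y = 0
  · left
    subst hy
    have e1 : x ^ 2 + (a : Ω) * x + (b : Ω) = 0 := by
      have h1 : x * (x ^ 2 + (a : Ω) * x + (b : Ω)) = 0 := by
        linear_combination -e0
      exact (mul_eq_zero.1 h1).resolve_left hx
    obtain ⟨r, hr⟩ : ∃ r : K, algebraMap K Ω r = (2 * x + a) * s := by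
      apply fixm
      intro σ
      by_cases h : σ s = s
      · rw [map_mul, map_add, map_mul, (f0 σ h).1, h, map_ofNat, map_intCast]
      · rw [map_mul, map_add, map_mul, (f1 σ h).1, (hsσ σ).resolve_left h, map_ofNat, map_intCast]
        have e2 : (b : Ω) / x = - (x + (a : Ω)) := by
          rw [div_eq_iff hx]
          linear_combination e1
        rw [e2]
        ring
    refine ⟨r, ?_⟩
    apply (algebraMap K Ω).injective
    have e3 : ((2 * x + (a : Ω)) * s) ^ 2 = ((a : Ω) ^ 2 - 4 * (b : Ω)) * d := by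
      rw [mul_pow, hs]
      linear_combination 4 * (d : Ω) * e1
    rw [map_mul, map_mul, hr]
    simp only [map_intCast, map_ofNat, map_sub, map_mul, map_pow]
    linear_combination (-1 : Ω) * e3
  · right
    obtain ⟨r, hr⟩ : ∃ r : K, algebraMap K Ω r = (y / x) * s := by
      apply fixm
      intro σ
      by_cases h : σ s = s
      · rw [map_mul, map_div₀, (f0 σ h).1, (f0 σ h).2, h]
      · rw [map_mul, map_div₀, (f1 σ h).1, (f1 σ h).2, (hsσ σ).resolve_left h]
        field_simp
    obtain ⟨Y, hY⟩ : ∃ Y : K, algebraMap K Ω Y =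
        y * ((b : Ω) - x ^ 2) / x ^ 2 := by
      apply fixm
      intro σ
      have e5 : σ (b : Ω) = b := map_intCast σ b
      by_cases h : σ s = s
      · simp only [map_div₀, map_mul, map_sub, map_pow, (f0 σ h).1, (f0 σ h).2, e5]
      · simp only [map_div₀, map_mul, map_sub, map_pow, (f1 σ h).1, (f1 σ h).2, e5]
        field_simp
        ring
    have hr0 : r ≠ 0 := by
      rintro rfl
      rw [map_zero] at hr
      exact mul_ne_zero (div_ne_zero hy hx) hs0 hr.symm
    have hdq : (d : K) ≠ 0 := by exact_mod_cast hd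
    have hX : algebraMap K Ω ((d : K) * (r / d) ^ 2) = y ^ 2 / x ^ 2 := by
      rw [map_mul, map_pow, map_div₀, hr]
      simp only [map_intCast]
      rw [← hs]
      have e10 : s ^ 2 * (y / x * s / s ^ 2) ^ 2 = (s ^ 2 * s ^ 2 / (s ^ 2) ^ 2) *
          (y ^ 2 / x ^ 2) := by ring
      rw [e10]
      have e11 : s ^ 2 * s ^ 2 / (s ^ 2) ^ 2 = 1 := by
        rw [← sq]
        exact div_self (pow_ne_zero 2 (pow_ne_zero 2 hs0))
      rw [e11, one_mul]
    refine ⟨(d : K) * (r / d) ^ 2, Y, r / d, ?_, ?_, rfl⟩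
    · exact mul_ne_zero hdq (pow_ne_zero 2 (div_ne_zero hr0 hdq))
    · apply (algebraMap K Ω).injective
      have e8 : algebraMap K Ω (((d : K) * (r / d) ^ 2) ^ 3 - 2 * (a : K) *
          ((d : K) * (r / d) ^ 2) ^ 2 + ((a : K) ^ 2 - 4 * (b : K)) * ((d : K) * (r / d) ^ 2)) =
          (y ^ 2 / x ^ 2) ^ 3 - 2 * (a : Ω) * (y ^ 2 / x ^ 2) ^ 2 +
            ((a : Ω) ^ 2 - 4 * (b : Ω)) * (y ^ 2 / x ^ 2) := by
        rw [← hX]
        simp only [map_add, map_sub, map_mul, map_pow, map_intCast, map_ofNat]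
      rw [e8, map_pow, hY]
      have e9 : (y * ((b : Ω) - x ^ 2) / x ^ 2) ^ 2 = y ^ 2 * ((b : Ω) - x ^ 2) ^ 2 / x ^ 4 := by
        field_simp
      rw [e9, e0]
      field_simp
      ring

end Pool.Agent.N818.SL
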