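import Pool.Agent.N818.SL.Stm2
import Pool.Agent.N973.ND.Vp

/-!
# The Selmer group: the squarefree numbers which are locally soluble everywhere are the products of
# the sets `J` with `CJ`, up to the factor seven
-/

set_option autoImplicit false

open scoped Classical

namespace Pool.Agent.N818.SL

open Finset
open Pool.Agent.Z702 (LocI)
open Pool.Agent.N973.ND (Pr ty m7 m7_le)
open Pool.Agent.N973.NT (sq7)

lemma pr_of {D : ℕ} (h4 : D % 4 = 1) (h7 : ¬ 7 ∣ D) {p : ℕ} (hp : p ∈ D.primeFactors) : Pr p := by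
  have h1 := Nat.prime_of_mem_primeFactors hp
  have h2 := Nat.dvd_of_mem_primeFactors hp
  refine ⟨h1, ?_, ?_⟩
  · rintro rfl
    omega
  · rintro rfl
    exact h7 h2

lemma ty1 {p : ℕ} (h : ty p = 1) : m7 p ≠ 1 ∧ p % 4 = 3 := by
  unfold ty at h
  split_ifs at h with h1
  · exact ⟨by omega, h1⟩
  · omega

lemma ty2 {p : ℕ} (hp : Pr p) (h : ty p = 2) : m7 p = 1 ∧ p % 4 = 1 := by
  have h0 := hp.1.eq_two_or_odd
  unfold ty at h
  split_ifs at h with h1
  · omega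
  · refine ⟨by omega, ?_⟩
    rcases h0 with h0 | h0
    · exact absurd h0 hp.2.1
    · omega

/-- seven is a square modulo `p` if `p` is inert and `3` modulo `4`, or split and `1` modulo `4` -/
lemma seven_sq {p : ℕ} [Fact p.Prime] (h7 : p ≠ 7) (h : (¬ IsSquare (-7 : ZMod p) ∧ p % 4 = 3) ∨
    (IsSquare (-7 : ZMod p) ∧ p % 4 = 1)) : IsSquare (7 : ZMod p) ∧ (7 : ZMod p) ≠ 0 := by
  have hp : p.Prime := Fact.out
  have hn : (7 : ZMod p) ≠ 0 := by
    intro h0
    have h1 : ((7 : ℕ) : ZMod p) = 0 := by exact_mod_cast h0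
    rw [ZMod.natCast_eq_zero_iff] at h1
    exact h7 ((Nat.prime_dvd_prime_iff_eq hp (by norm_num)).1 h1)
  refine ⟨?_, hn⟩
  rcases h with ⟨h1, h2⟩ | ⟨h1, h2⟩
  · have h3 : ¬ IsSquare (-1 : ZMod p) := by
      rw [ZMod.exists_sq_eq_neg_one_iff]
      omega
    have hp2 : ringChar (ZMod p) ≠ 2 := by
      rw [ZMod.ringChar_zmod_n]
      rintro rfl
      omega
    have h5 := (FiniteField.isSquare_iff hp2 (neg_ne_zero.2 hn)).not.1 h1
    have h6 := (FiniteField.isSquare_iff hp2 (neg_ne_zero.2 (one_ne_zero (α := ZMod p)))).not.1 h3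
    rw [FiniteField.isSquare_iff hp2 hn]
    have d1 := FiniteField.pow_dichotomy hp2 (neg_ne_zero.2 hn)
    have d2 := FiniteField.pow_dichotomy hp2 (neg_ne_zero.2 (one_ne_zero (α := ZMod p)))
    have e1 := d1.resolve_left h5
    have e2 := d2.resolve_left h6
    have e3 : (7 : ZMod p) = -7 * -1 := by ring
    rw [e3, mul_pow, e1, e2]
    ring
  · have h3 : IsSquare (-1 : ZMod p) := by
      rw [ZMod.exists_sq_eq_neg_one_iff]
      omega
    have e3 : (7 : ZMod p) = -7 * -1 := by ring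
    rw [e3]
    exact h1.mul h3

/-- divide by a nonzero square -/
lemma sq_div {F : Type*} [Field F] {x y : F} (hx : IsSquare x) (hx0 : x ≠ 0) (h : IsSquare (x * y)) :
    IsSquare y := by
  have e : y = x * y / x := by field_simp
  rw [e]
  exact h.div hx

section

variable {D : ℕ} (hsq : Squarefree D) (h4 : D % 4 = 1) (h7 : ¬ 7 ∣ D)

include hsq h4 h7

/-- necessity -/
theorem nec (hN2 : S_N2) (hNP : S_NP) (hNR : S_NR) {d : ℤ} (hd : Squarefree d)
    (hl : ∀ (p : ℕ) [Fact p.Prime], LL ℚ_[p] D d) (hr : LL ℝ D d) :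
    ∃ J, CJ D.primeFactors J ∧ (d = ((∏ q ∈ J, q : ℕ) : ℤ) ∨ d = 7 * ((∏ q ∈ J, q : ℕ) : ℤ)) := by
  have hD0 : 0 < D := by omega
  have hsqZ : Squarefree (D : ℤ) := Int.squarefree_natCast.2 hsq
  have hd0 : 0 < d := hNR D d (by exact_mod_cast hD0) hd.ne_zero hr
  obtain ⟨n, rfl⟩ : ∃ n : ℕ, d = n := ⟨d.toNat, (Int.toNat_of_nonneg hd0.le).symm⟩
  have hn : Squarefree n := Int.squarefree_natCast.1 hd
  have hn0 : n ≠ 0 := hn.ne_zero
  obtain ⟨J, hJ⟩ : ∃ J, J = n.primeFactors.filter fun p => p ≠ 7 := ⟨_, rfl⟩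
  have hf2 : Fact (Nat.Prime 2) := ⟨Nat.prime_two⟩
  have h2n : ¬ (2 : ℤ) ∣ (n : ℤ) := hN2 D n (by omega) hd (hl 2)
  have hmem : ∀ q ∈ J, q ∈ D.primeFactors ∧ m7 q = 1 := by
    intro q hq
    rw [hJ, mem_filter, Nat.mem_primeFactors] at hq
    obtain ⟨⟨hq1, hq2, -⟩, hq7⟩ := hq
    have hfq : Fact q.Prime := ⟨hq1⟩
    have hq2' : q ≠ 2 := by
      rintro rfl
      exact h2n (by exact_mod_cast hq2)
    obtain ⟨g1, g2, -⟩ := hNP q D n hq2' hq7 hsqZ hd (hl q)
    have hqn : (q : ℤ) ∣ (n : ℤ) := by exact_mod_cast hq2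
    refine ⟨?_, ?_⟩
    · rw [Nat.mem_primeFactors]
      refine ⟨hq1, ?_, hD0.ne'⟩
      by_contra h
      exact g1 (fun h' => h (by exact_mod_cast h')) hqn
    · rw [← sq7 ⟨hq1, hq2', hq7⟩]
      by_contra h
      exact g2 h hqn
  have hprod : n = ∏ q ∈ J, q ∨ n = 7 * ∏ q ∈ J, q := by
    have h1 := Nat.prod_primeFactors_of_squarefree hn
    by_cases h : 7 ∈ n.primeFactors
    · right
      rw [← Finset.mul_prod_erase _ _ h] at h1
      rw [← h1, hJ, Finset.filter_ne']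
    · left
      rw [← h1, hJ]
      congr 1
      symm
      rw [Finset.filter_eq_self]
      rintro p hp rfl
      exact h hp
  -- passing from `n` to the product of `J`
  have key : ∀ (p : ℕ) [Fact p.Prime], p ≠ 7 → ((¬ IsSquare (-7 : ZMod p) ∧ p % 4 = 3) ∨
      (IsSquare (-7 : ZMod p) ∧ p % 4 = 1)) → ∀ (n' m : ℕ) (t : ZMod p), (n' = m ∨ n' = 7 * m) →
      IsSquare ((n' : ZMod p) * t) → IsSquare ((m : ZMod p) * t) := by
    intro p _ hp7 hp n' m t hnm hs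
    rcases hnm with rfl | rfl
    · exact hs
    · obtain ⟨s1, s2⟩ := seven_sq hp7 hp
      push_cast at hs
      rw [mul_assoc] at hs
      exact sq_div s1 s2 hs
  refine ⟨J, ⟨fun q hq => (hmem q hq).1, fun q hq => (hmem q hq).2, ?_, ?_, ?_⟩, ?_⟩
  · intro p hp ht
    have hP := pr_of h4 h7 hp
    have hfp : Fact p.Prime := ⟨hP.1⟩
    obtain ⟨t1, t2⟩ := ty1 ht
    have hns : ¬ IsSquare (-7 : ZMod p) := fun h => t1 ((sq7 hP).1 h)
    obtain ⟨-, -, g3, -⟩ := hNP p D n hP.2.1 hP.2.2 hsqZ hd (hl p)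
    have h5 := g3 hns (by exact_mod_cast Nat.dvd_of_mem_primeFactors hp) t2
    rw [Int.cast_natCast] at h5
    have h6 := key p hP.2.2 (Or.inl ⟨hns, t2⟩) n _ 1 hprod (by rwa [mul_one])
    rwa [mul_one] at h6
  · intro p hp ht hpJ
    have hP := pr_of h4 h7 hp
    have hfp : Fact p.Prime := ⟨hP.1⟩
    obtain ⟨t1, t2⟩ := ty2 hP ht
    have hns : IsSquare (-7 : ZMod p) := (sq7 hP).2 t1
    obtain ⟨-, -, -, g4, -⟩ := hNP p D n hP.2.1 hP.2.2 hsqZ hd (hl p)
    have hpn : ¬ (p : ℤ) ∣ (n : ℤ) := by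
      intro h
      apply hpJ
      rw [hJ, mem_filter, Nat.mem_primeFactors]
      exact ⟨⟨hP.1, by exact_mod_cast h, hn0⟩, hP.2.2⟩
    have h5 := g4 hns (by exact_mod_cast Nat.dvd_of_mem_primeFactors hp) t2 hpn
    rw [Int.cast_natCast] at h5
    have h6 := key p hP.2.2 (Or.inr ⟨hns, t2⟩) n _ 1 hprod (by rwa [mul_one])
    rwa [mul_one] at h6
  · intro p hp ht t hte
    have hpS := (hmem p hp).1
    have hP := pr_of h4 h7 hpS
    have hfp : Fact p.Prime := ⟨hP.1⟩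
    obtain ⟨t1, t2⟩ := ty2 hP ht
    have hns : IsSquare (-7 : ZMod p) := (sq7 hP).2 t1
    obtain ⟨-, -, -, -, g5⟩ := hNP p D n hP.2.1 hP.2.2 hsqZ hd (hl p)
    obtain ⟨E, hE⟩ : ∃ E, E = ∏ q ∈ D.primeFactors.erase p, q := ⟨_, rfl⟩
    obtain ⟨m, hm⟩ : ∃ m, m = ∏ q ∈ J.erase p, q := ⟨_, rfl⟩
    have hDE : D = p * E := by
      rw [hE, Finset.mul_prod_erase _ (fun q => q) hpS, Nat.prod_primeFactors_of_squarefree hsq]
    have hJm : ∏ q ∈ J, q = p * m := by
      rw [hm, Finset.mul_prod_erase _ (fun q => q) hp]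
    obtain ⟨n', hn', hn''⟩ : ∃ n' : ℕ, n = p * n' ∧ (n' = m ∨ n' = 7 * m) := by
      rcases hprod with h | h
      · exact ⟨m, by rw [h, hJm], Or.inl rfl⟩
      · exact ⟨7 * m, by rw [h, hJm]; ring, Or.inr rfl⟩
    have h5 := g5 t2 E n' (by rw [hDE]; push_cast; ring) (by rw [hn']; push_cast; ring) t hte
    have h6 := key p hP.2.2 (Or.inr ⟨hns, t2⟩) n' m ((E : ZMod p) * t) hn'' (by
      have e : (n' : ZMod p) * ((E : ZMod p) * t) = ((E * n' : ℤ) : ZMod p) * t := by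
        push_cast
        ring
      rw [e]
      exact h5)
    have e : (((∏ q ∈ D.primeFactors.erase p, q) * ∏ q ∈ J.erase p, q : ℕ) : ZMod p) * t =
        (m : ZMod p) * ((E : ZMod p) * t) := by
      rw [← hE, ← hm]
      push_cast
      ring
    rw [e]
    exact h6
  · rcases hprod with h | h
    · left
      exact congrArg (Nat.cast : ℕ → ℤ) h
    · right
      rw [h]
      push_cast
      ring

end

end Pool.Agent.N818.SL
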