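import Pool.Agent.N818.SL.Suf
import Pool.Agent.N818.SL.Lcb
import Pool.Agent.N818.SL.Prim
import Pool.Agent.N818.SL.Add
import Pool.Agent.Y210.Z702.LOT
import Pool.Agent.Z290.COB
import Pool.Agent.Y545.Z702.Tor
import Pool.Agent.Z864.LQ.Lq

/-!
# The 2-primary part of `Ш(E'_D)`
-/

set_option autoImplicit false

open scoped Classical

namespace Pool.Agent.N818.SL

open Finset WeierstrassCurve
open Pool.Agent.TH841.SH.D
open Pool.Agent.Z702 (LocI WZ coc)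
open Pool.Agent.N973.ND (Pr ty m7 m7_le kd Gd)
open Pool.Agent.N973.NT (sq7)

/-- the curve `y² = x³ - 42 D x² - 7 D² x` -/
noncomputable abbrev WD (D : ℕ) : WeierstrassCurve ℚ := WZ (-42 * (D : ℤ)) (-7 * (D : ℤ) ^ 2)

section

variable {D : ℕ} (hsq : Squarefree D) (h4 : D % 4 = 1) (h7 : ¬ 7 ∣ D)

include h4 in
lemma hbD : (-7 * (D : ℤ) ^ 2) ≠ 0 := by
  have : (D : ℤ) ≠ 0 := by
    have : D ≠ 0 := by omega
    exact_mod_cast this
  exact mul_ne_zero (by norm_num) (pow_ne_zero 2 this)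

include h4 in
lemma habD : (-42 * (D : ℤ)) ^ 2 - 4 * (-7 * (D : ℤ) ^ 2) ≠ 0 := by
  have : (D : ℤ) ≠ 0 := by
    have : D ≠ 0 := by omega
    exact_mod_cast this
  have e : (-42 * (D : ℤ)) ^ 2 - 4 * (-7 * (D : ℤ) ^ 2) = 1792 * (D : ℤ) ^ 2 := by ring
  rw [e]
  exact mul_ne_zero (by norm_num) (pow_ne_zero 2 this)

lemma prod_ne {J : Finset ℕ} (hJ : ∀ q ∈ J, q.Prime) : ((∏ q ∈ J, q : ℕ) : ℤ) ≠ 0 := by
  exact_mod_cast Finset.prod_ne_zero_iff.2 fun q hq => (hJ q hq).ne_zero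

/-- a product of different primes is squarefree -/
lemma sqf_prod {J : Finset ℕ} (hJ : ∀ q ∈ J, q.Prime) : Squarefree (∏ q ∈ J, q) := by
  induction J using Finset.induction_on with
  | empty => simp
  | insert q J hq ih =>
    rw [Finset.prod_insert hq, Nat.squarefree_mul_iff]
    refine ⟨?_, (hJ q (mem_insert_self q J)).prime.squarefree,
      ih fun r hr => hJ r (mem_insert_of_mem hr)⟩
    apply Nat.Coprime.prod_right
    intro r hr
    rw [Nat.coprime_primes (hJ q (mem_insert_self q J)) (hJ r (mem_insert_of_mem hr))]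
    rintro rfl
    exact hq hr

lemma one_of_sq {c : ℕ} (hc : Squarefree c) (h : IsSquare (c : ℚ)) : c = 1 := by
  rw [Rat.isSquare_natCast_iff] at h
  obtain ⟨r, rfl⟩ := h
  have h1 := hc r (dvd_refl _)
  rw [Nat.isUnit_iff] at h1
  rw [h1]

section

attribute [-instance] DivisionRing.toRatAlgebra

/-- the real place -/
lemma locR {J : Finset ℕ} (h4 : D % 4 = 1) (hJ : ∀ q ∈ J, q.Prime) :
    LocI ℝ (-42 * (D : ℤ)) (-7 * (D : ℤ) ^ 2) ((∏ q ∈ J, q : ℕ) : ℤ) :=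
  (Pool.Agent.Z864.LQ.t_LQ _ _ _ (hbD h4) (habD h4) (prod_ne hJ)).2 (by
    exact_mod_cast Finset.prod_pos fun q hq => (hJ q hq).pos)

end

include hsq h7 in
/-- the class of a set -/
theorem mem (hS2 : S_S2) (hSP : S_SP) {J : Finset ℕ} (hJ : CJ D.primeFactors J) :
    coc (hbD h4) ((∏ q ∈ J, q : ℕ) : ℤ) ∈ shaCoc (WD D) := by
  have hJp : ∀ q ∈ J, q.Prime := fun q hq => (pr_of h4 h7 (hJ.1 hq)).1
  refine ⟨(Pool.Agent.Z488.t_COC _ _ (hbD h4) _).1, fun p hp => ?_, ?_⟩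
  · exact Pool.Agent.Y210.Z702.t_LOT _ _ (hbD h4) _ (habD h4) (prod_ne hJp) ℚ_[p]
      (suf hsq h4 h7 hS2 hSP hJ p)
  · exact Pool.Agent.Y210.Z702.t_LOT _ _ (hbD h4) _ (habD h4) (prod_ne hJp) ℝ (locR h4 hJp)

lemma cob_of_eq {W : WeierstrassCurve ℚ} {c c' : shaCoc W} (h : cls W c = cls W c') :
    IsCob W (c.1 - c'.1) := by
  have h1 : cls W (c - c') = 0 := by
    have h2 : cls W (c - c') = cls W c - cls W c' := rfl
    rw [h2, h, sub_self]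
  exact (cls_zero_iff (c - c')).1 h1

lemma prod_symm (J J' : Finset ℕ) : (∏ q ∈ J, q) * ∏ q ∈ J', q =
    (∏ q ∈ (J \ J') ∪ (J' \ J), q) * (∏ q ∈ J ∩ J', q) ^ 2 := by
  rw [Finset.prod_union (by
    rw [Finset.disjoint_left]
    intro q h1 h2
    rw [mem_sdiff] at h1 h2
    exact h1.2 h2.1)]
  have e1 : ∏ q ∈ J, q = (∏ q ∈ J \ J', q) * ∏ q ∈ J ∩ J', q := by
    rw [← Finset.prod_union (by
      rw [Finset.disjoint_left]
      intro q h1 h2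
      rw [mem_sdiff] at h1
      exact h1.2 (mem_inter.1 h2).2), Finset.sdiff_union_inter]
  have e2 : ∏ q ∈ J', q = (∏ q ∈ J' \ J, q) * ∏ q ∈ J ∩ J', q := by
    rw [Finset.inter_comm, ← Finset.prod_union (by
      rw [Finset.disjoint_left]
      intro q h1 h2
      rw [mem_sdiff] at h1
      exact h1.2 (mem_inter.1 h2).2), Finset.sdiff_union_inter]
  rw [e1, e2]
  ring

include h7 in
/-- different sets give different classes -/
theorem inj (hfin : Finite (WD D).toAffine.Point) {J J' : Finset ℕ} (hJ : J ⊆ D.primeFactors)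
    (hJ' : J' ⊆ D.primeFactors)
    (h : IsCob (WD D) (coc (hbD h4) ((∏ q ∈ J, q : ℕ) : ℤ) -
      coc (hbD h4) ((∏ q ∈ J', q : ℕ) : ℤ))) : J = J' := by
  have hP : ∀ q ∈ (J \ J') ∪ (J' \ J), Pr q := by
    intro q hq
    rw [mem_union, mem_sdiff, mem_sdiff] at hq
    rcases hq with hq | hq
    · exact pr_of h4 h7 (hJ hq.1)
    · exact pr_of h4 h7 (hJ' hq.1)
  obtain ⟨c, hc⟩ : ∃ c, c = ∏ q ∈ (J \ J') ∪ (J' \ J), q := ⟨_, rfl⟩
  have hsf : Squarefree c := by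
    rw [hc]
    exact sqf_prod fun q hq => (hP q hq).1
  have hJp : ∀ q ∈ J, q.Prime := fun q hq => (pr_of h4 h7 (hJ hq)).1
  have hJp' : ∀ q ∈ J', q.Prime := fun q hq => (pr_of h4 h7 (hJ' hq)).1
  have hD0 : (D : ℤ) ≠ 0 := by
    have : D ≠ 0 := by omega
    exact_mod_cast this
  have hDQ : (D : ℚ) ≠ 0 := by exact_mod_cast hD0
  have h2 := (Pool.Agent.Z488.t_COC _ _ (hbD h4) ((∏ q ∈ J', q : ℕ) : ℤ) :
    IsCoc (WD D) _ ∧ _).2
  have h3 : coc (a := -42 * (D : ℤ)) (hbD h4) (c : ℤ) =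
      coc (hbD h4) ((∏ q ∈ J, q : ℕ) : ℤ) + coc (hbD h4) ((∏ q ∈ J', q : ℕ) : ℤ) := by
    refine coc_add (hbD h4) (m := ((∏ q ∈ J ∩ J', q : ℕ) : ℤ)) (prod_ne hJp) (prod_ne hJp')
      (prod_ne fun q hq => hJp q (mem_inter.1 hq).1) ?_
    rw [hc]
    exact_mod_cast prod_symm J J'
  have h5 : IsCob (WD D) (coc (hbD h4) (c : ℤ)) := by
    have e : coc (a := -42 * (D : ℤ)) (hbD h4) (c : ℤ) =
        coc (hbD h4) ((∏ q ∈ J, q : ℕ) : ℤ) - coc (hbD h4) ((∏ q ∈ J', q : ℕ) : ℤ) := by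
      rw [h3, eq_sub_iff_add_eq, add_assoc, h2, add_zero]
    rw [e]
    exact h
  have hc0 : (c : ℤ) ≠ 0 := by exact_mod_cast hsf.ne_zero
  have hdis : (((-42 * (D : ℤ) : ℤ) : ℚ) ^ 2 - 4 * ((-7 * (D : ℤ) ^ 2 : ℤ) : ℚ)) =
      7 * (16 * (D : ℚ)) ^ 2 := by
    push_cast
    ring
  have h16 : (16 * (D : ℚ)) ≠ 0 := mul_ne_zero (by norm_num) hDQ
  have hn7 : ¬ IsSquare (((-42 * (D : ℤ) : ℤ) : ℚ) ^ 2 - 4 * ((-7 * (D : ℤ) ^ 2 : ℤ) : ℚ)) := by
    rw [hdis]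
    intro h
    have h8 : IsSquare ((7 : ℕ) : ℚ) := by
      have := h.div (IsSquare.sq (16 * (D : ℚ)))
      rwa [mul_div_assoc, div_self (pow_ne_zero 2 h16), mul_one] at this
    exact absurd (one_of_sq (by norm_num : Nat.Prime 7).prime.squarefree h8) (by norm_num)
  have hnb : ¬ IsSquare (((-7 * (D : ℤ) ^ 2 : ℤ)) : ℚ) := by
    intro h
    have h8 := h.nonneg
    push_cast at h8
    have h9 : 0 < (D : ℚ) ^ 2 := by positivity
    linarith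
  have h6 : IsSquare ((c : ℤ) : ℚ) ∨ IsSquare (((c : ℤ) : ℚ) * (((-42 * (D : ℤ) : ℤ) : ℚ) ^ 2 -
      4 * ((-7 * (D : ℤ) ^ 2 : ℤ) : ℚ))) := by
    rcases Pool.Agent.Z290.COBf.t_COB _ _ (hbD h4) (c : ℤ) (habD h4) hc0 h5 with h8 | h8 | h8
    · exact Or.inl h8
    · exact Or.inr h8
    · exact Pool.Agent.Y545.Z702.t_TOR _ _ (c : ℤ) (hbD h4) (habD h4) hnb hn7 hfin h8
  have hc1 : c = 1 := by
    rcases h6 with h8 | h8
    · rw [Int.cast_natCast] at h8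
      exact one_of_sq hsf h8
    · exfalso
      rw [hdis, Int.cast_natCast] at h8
      have h9 : IsSquare ((7 * c : ℕ) : ℚ) := by
        have := h8.div (IsSquare.sq (16 * (D : ℚ)))
        have e : (c : ℚ) * (7 * (16 * (D : ℚ)) ^ 2) / (16 * (D : ℚ)) ^ 2 = ((7 * c : ℕ) : ℚ) := by
          push_cast
          field_simp
        rwa [e] at this
      have h10 : Squarefree (7 * c) := by
        rw [Nat.squarefree_mul_iff]
        refine ⟨?_, (by norm_num : Nat.Prime 7).prime.squarefree, hsf⟩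
        rw [hc]
        apply Nat.Coprime.prod_right
        intro r hr
        rw [Nat.coprime_primes (by norm_num) (hP r hr).1]
        exact fun h => (hP r hr).2.2 h.symm
      have := one_of_sq h10 h9
      omega
  have hem : (J \ J') ∪ (J' \ J) = ∅ := by
    rw [Finset.eq_empty_iff_forall_notMem]
    intro q hq
    have h8 : q ∣ 1 := by
      rw [← hc1, hc]
      exact Finset.dvd_prod_of_mem (fun q => q) hq
    exact (hP q hq).1.one_lt.ne' (Nat.dvd_one.1 h8)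
  rw [Finset.union_eq_empty, Finset.sdiff_eq_empty_iff_subset, Finset.sdiff_eq_empty_iff_subset] at hem
  exact Finset.Subset.antisymm hem.1 hem.2


lemma ll_of {K : Type} [Field K] (hK : (D : K) ≠ 0) (h2 : (2 : K) ≠ 0) {d : ℤ}
    (h : IsSquare (d : K) ∨ IsSquare ((d : K) * (((-42 * (D : ℤ) : ℤ) : K) ^ 2 -
      4 * ((-7 * (D : ℤ) ^ 2 : ℤ) : K))) ∨ LocI K (-42 * (D : ℤ)) (-7 * (D : ℤ) ^ 2) d) :
    LL K D d := by
  rcases h with h | h | h
  · exact Or.inl h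
  · refine Or.inr (Or.inl ?_)
    have h16 : (16 * (D : K)) ≠ 0 := by
      have : (16 : K) = 2 ^ 4 := by norm_num
      rw [this]
      exact mul_ne_zero (pow_ne_zero 4 h2) hK
    have h8 := h.div (IsSquare.sq (16 * (D : K)))
    have e : (d : K) * (((-42 * (D : ℤ) : ℤ) : K) ^ 2 - 4 * ((-7 * (D : ℤ) ^ 2 : ℤ) : K)) /
        (16 * (D : K)) ^ 2 = 7 * (d : K) := by
      rw [div_eq_iff (pow_ne_zero 2 h16)]
      push_cast
      ring
    rwa [e] at h8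
  · exact Or.inr (Or.inr h)

include hsq h7 in
/-- every class killed by a power of two is the class of a set -/
theorem surj (hS2 : S_S2) (hSP : S_SP) (hN2 : S_N2) (hNP : S_NP) (hNR : S_NR)
    (hSha : ∀ x : Sha (WZ (-2 * (-42 * (D : ℤ))) ((-42 * (D : ℤ)) ^ 2 - 4 * (-7 * (D : ℤ) ^ 2))),
      x + x = 0 → x = 0) (x : Sha (WD D)) (n : ℕ) (hx : (2 ^ n) • x = 0) :
    ∃ (J : Finset ℕ) (hJ : CJ D.primeFactors J),
      cls (WD D) ⟨coc (hbD h4) ((∏ q ∈ J, q : ℕ) : ℤ), mem hsq h4 h7 hS2 hSP hJ⟩ = x := by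
  obtain ⟨d, hd, hc, hx'⟩ := prim (hbD h4) (habD h4) hSha x n hx
  have hd0 : d ≠ 0 := hd.ne_zero
  have hD0 : D ≠ 0 := by omega
  have l1 : ∀ (p : ℕ) [Fact p.Prime], LL ℚ_[p] D d := by
    intro p _
    refine ll_of (by exact_mod_cast hD0) two_ne_zero ?_
    exact lcb _ _ (hbD h4) d hd0 ℚ_[p] (hc.2.1 p)
  have l2 : LL ℝ D d := by
    refine ll_of (by exact_mod_cast hD0) two_ne_zero ?_
    exact lcb _ _ (hbD h4) d hd0 ℝ hc.2.2
  obtain ⟨J, hJ, hdJ⟩ := nec hsq h4 h7 hN2 hNP hNR hd l1 l2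
  refine ⟨J, hJ, ?_⟩
  rw [← hx']
  rcases hdJ with h | h
  · subst h
    rfl
  · symm
    apply cls_eq
    have hJp : ∀ q ∈ J, q.Prime := fun q hq => (pr_of h4 h7 (hJ.1 hq)).1
    have h3 : coc (a := -42 * (D : ℤ)) (hbD h4) d =
        coc (hbD h4) 7 + coc (hbD h4) ((∏ q ∈ J, q : ℕ) : ℤ) := by
      refine coc_add (hbD h4) (m := 1) (by norm_num) (prod_ne hJp) one_ne_zero ?_
      rw [h]
      ring
    have e : coc (a := -42 * (D : ℤ)) (hbD h4) d - coc (hbD h4) ((∏ q ∈ J, q : ℕ) : ℤ) =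
        coc (hbD h4) 7 := by
      rw [h3]
      abel
    change IsCob (WD D) (coc (hbD h4) d - coc (hbD h4) ((∏ q ∈ J, q : ℕ) : ℤ))
    rw [e]
    refine coc_cob (hbD h4) (m := 112 * (D : ℤ)) (by norm_num) ?_ ?_
    · exact mul_ne_zero (by norm_num) (by exact_mod_cast hD0)
    · ring

include hsq h4 h7 in
/-- **the 2-primary part** -/
theorem str (hS2 : S_S2) (hSP : S_SP) (hN2 : S_N2) (hNP : S_NP) (hNR : S_NR)
    (hfin : Finite (WD D).toAffine.Point)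
    (hSha : ∀ x : Sha (WZ (-2 * (-42 * (D : ℤ))) ((-42 * (D : ℤ)) ^ 2 - 4 * (-7 * (D : ℤ) ^ 2))),
      x + x = 0 → x = 0) :
    Nat.card {x : Sha (WD D) // ∃ n : ℕ, 2 ^ n • x = 0} =
      (D.primeFactors.powerset.filter fun J => CJ D.primeFactors J).card ∧
    ∀ x : Sha (WD D), (∃ n : ℕ, 2 ^ n • x = 0) → x + x = 0 := by
  have htwo : ∀ (J : Finset ℕ) (hJ : CJ D.primeFactors J),
      cls (WD D) ⟨coc (hbD h4) ((∏ q ∈ J, q : ℕ) : ℤ), mem hsq h4 h7 hS2 hSP hJ⟩ +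
      cls (WD D) ⟨coc (hbD h4) ((∏ q ∈ J, q : ℕ) : ℤ), mem hsq h4 h7 hS2 hSP hJ⟩ = 0 := by
    intro J hJ
    rw [← cls_add, cls_zero_iff]
    have h2 := (Pool.Agent.Z488.t_COC _ _ (hbD h4) ((∏ q ∈ J, q : ℕ) : ℤ) :
      IsCoc (WD D) _ ∧ _).2
    change IsCob (WD D) (coc (hbD h4) ((∏ q ∈ J, q : ℕ) : ℤ) +
      coc (hbD h4) ((∏ q ∈ J, q : ℕ) : ℤ))
    rw [h2]
    exact (cob (WD D)).zero_mem
  have hall : ∀ x : Sha (WD D), (∃ n : ℕ, 2 ^ n • x = 0) → x + x = 0 := by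
    rintro x ⟨n, hx⟩
    obtain ⟨J, hJ, rfl⟩ := surj hsq h4 h7 hS2 hSP hN2 hNP hNR hSha x n hx
    exact htwo J hJ
  refine ⟨?_, hall⟩
  let T := D.primeFactors.powerset.filter fun J => CJ D.primeFactors J
  have hT : ∀ J : T, CJ D.primeFactors (J : Finset ℕ) := fun J => (mem_filter.1 J.2).2
  let Φ : T → {x : Sha (WD D) // ∃ n : ℕ, 2 ^ n • x = 0} := fun J =>
    ⟨cls (WD D) ⟨coc (hbD h4) ((∏ q ∈ (J : Finset ℕ), q : ℕ) : ℤ),
      mem hsq h4 h7 hS2 hSP (hT J)⟩, ⟨1, by rw [pow_one, two_nsmul]; exact htwo _ (hT J)⟩⟩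
  have hΦ : Function.Bijective Φ := by
    constructor
    · intro J J' h
      have h1 : cls (WD D) ⟨coc (hbD h4) ((∏ q ∈ (J : Finset ℕ), q : ℕ) : ℤ),
          mem hsq h4 h7 hS2 hSP (hT J)⟩ = cls (WD D)
          ⟨coc (hbD h4) ((∏ q ∈ (J' : Finset ℕ), q : ℕ) : ℤ), mem hsq h4 h7 hS2 hSP (hT J')⟩ :=
        congrArg Subtype.val h
      have h2 : IsCob (WD D) (coc (hbD h4) ((∏ q ∈ (J : Finset ℕ), q : ℕ) : ℤ) -
          coc (hbD h4) ((∏ q ∈ (J' : Finset ℕ), q : ℕ) : ℤ)) := by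
        exact cob_of_eq h1
      exact Subtype.ext (inj h4 h7 hfin (hT J).1 (hT J').1 h2)
    · rintro ⟨x, n, hx⟩
      obtain ⟨J, hJ, hJx⟩ := surj hsq h4 h7 hS2 hSP hN2 hNP hNR hSha x n hx
      exact ⟨⟨J, mem_filter.2 ⟨mem_powerset.2 hJ.1, hJ⟩⟩, Subtype.ext hJx⟩
  rw [← Nat.card_congr (Equiv.ofBijective Φ hΦ), Nat.card_eq_fintype_card, Fintype.card_coe]

end

end Pool.Agent.N818.SL
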