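import Pool.Agent.N818.SL.Sel

/-!
# The Selmer group: the products of the sets `J` with `CJ` are locally soluble everywhere
-/

set_option autoImplicit false

open scoped Classical

namespace Pool.Agent.N818.SL

open Finset
open Pool.Agent.Z702 (LocI)
open Pool.Agent.N973.ND (Pr ty m7 m7_le)
open Pool.Agent.N973.NT (sq7)

lemma ndvd_prod {J : Finset ℕ} (hJ : ∀ q ∈ J, q.Prime) {p : ℕ} (hp : p.Prime) (hpJ : p ∉ J) :
    ¬ (p : ℤ) ∣ ((∏ q ∈ J, q : ℕ) : ℤ) := by
  intro h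
  have h1 : p ∣ ∏ q ∈ J, q := by exact_mod_cast h
  rw [hp.prime.dvd_finsetProd_iff] at h1
  obtain ⟨q, hq, h2⟩ := h1
  rw [(Nat.prime_dvd_prime_iff_eq hp (hJ q hq))] at h2
  exact hpJ (h2 ▸ hq)

lemma sq_prod7 {J : Finset ℕ} (hJ : ∀ q ∈ J, m7 q = 1) :
    IsSquare ((∏ q ∈ J, q : ℕ) : ZMod 7) := by
  push_cast
  apply Finset.isSquare_prod
  intro q hq
  have h1 := (Pool.Agent.N973.NT.m7_iff q).1 (hJ q hq)
  have h2 : ((q % 7 : ℕ) : ZMod 7) = (q : ZMod 7) := ZMod.natCast_mod q 7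
  rw [← h2]
  rcases h1 with h | h | h <;> rw [h]
  · exact ⟨1, by decide⟩
  · exact ⟨3, by decide⟩
  · exact ⟨2, by decide⟩

/-- the choice of the square root of `-7` modulo a prime `3` modulo `4` -/
lemma choose_t {p : ℕ} [Fact p.Prime] (h4 : p % 4 = 3) (hs : IsSquare (-7 : ZMod p)) (c : ZMod p) :
    ∃ t : ZMod p, t ^ 2 = -7 ∧ IsSquare (c * t) := by
  obtain ⟨t, ht⟩ := hs
  have h3 : ¬ IsSquare (-1 : ZMod p) := by
    rw [ZMod.exists_sq_eq_neg_one_iff]
    omega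
  have hp2 : ringChar (ZMod p) ≠ 2 := by
    rw [ZMod.ringChar_zmod_n]
    rintro rfl
    omega
  by_cases h0 : c * t = 0
  · exact ⟨t, by rw [ht]; ring, by rw [h0]; exact IsSquare.zero⟩
  · by_cases h1 : IsSquare (c * t)
    · exact ⟨t, by rw [ht]; ring, h1⟩
    · refine ⟨-t, by rw [ht]; ring, ?_⟩
      have h5 := (FiniteField.isSquare_iff hp2 h0).not.1 h1
      have h6 := (FiniteField.isSquare_iff hp2 (neg_ne_zero.2 (one_ne_zero (α := ZMod p)))).not.1 h3
      have e1 := (FiniteField.pow_dichotomy hp2 h0).resolve_left h5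
      have e2 := (FiniteField.pow_dichotomy hp2
        (neg_ne_zero.2 (one_ne_zero (α := ZMod p)))).resolve_left h6
      have e3 : c * -t = c * t * -1 := by ring
      rw [e3, FiniteField.isSquare_iff hp2 (mul_ne_zero h0 (by norm_num)), mul_pow, e1, e2]
      ring

section

variable {D : ℕ} (hsq : Squarefree D) (h4 : D % 4 = 1) (h7 : ¬ 7 ∣ D)

include hsq h4 h7

/-- sufficiency -/
theorem suf (hS2 : S_S2) (hSP : S_SP) {J : Finset ℕ} (hJ : CJ D.primeFactors J) (p : ℕ)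
    [hfp : Fact p.Prime] : LocI ℚ_[p] (-42 * D) (-7 * D ^ 2) ((∏ q ∈ J, q : ℕ) : ℤ) := by
  obtain ⟨c1, c2, c3, c4, c5⟩ := hJ
  have hp : p.Prime := Fact.out
  have hD0 : (D : ℤ) ≠ 0 := by
    have : D ≠ 0 := by omega
    exact_mod_cast this
  have hPr : ∀ q ∈ J, Pr q := fun q hq => pr_of h4 h7 (c1 hq)
  have hJp : ∀ q ∈ J, q.Prime := fun q hq => (hPr q hq).1
  by_cases hp2 : p = 2
  · subst hp2
    exact hS2 D _ (by omega) (ndvd_prod hJp hp fun h => (hPr 2 h).2.1 rfl)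
  obtain ⟨s1, s2, s3, s4, s5⟩ := hSP p D ((∏ q ∈ J, q : ℕ) : ℤ) hp2
  by_cases hp7 : p = 7
  · subst hp7
    refine s2 hD0 (ndvd_prod hJp hp fun h => (hPr 7 h).2.2 rfl) ?_
    rw [Int.cast_natCast]
    exact sq_prod7 c2
  by_cases hpD : p ∈ D.primeFactors
  swap
  · refine s1 hp7 (fun h => hpD ?_) (ndvd_prod hJp hp fun h => hpD (c1 h))
    rw [Nat.mem_primeFactors]
    exact ⟨hp, by exact_mod_cast h, by omega⟩
  have hP := pr_of h4 h7 hpD
  have hodd : p % 4 = 1 ∨ p % 4 = 3 := by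
    have := hp.eq_two_or_odd
    omega
  by_cases hpJ : p ∈ J
  · -- `p` divides `d`
    have hs7 : IsSquare (-7 : ZMod p) := (sq7 hP).2 (c2 p hpJ)
    obtain ⟨E, hE⟩ : ∃ E, E = ∏ q ∈ D.primeFactors.erase p, q := ⟨_, rfl⟩
    obtain ⟨m, hm⟩ : ∃ m, m = ∏ q ∈ J.erase p, q := ⟨_, rfl⟩
    have hDE : D = p * E := by
      rw [hE, Finset.mul_prod_erase _ (fun q => q) hpD, Nat.prod_primeFactors_of_squarefree hsq]
    have hJm : ∏ q ∈ J, q = p * m := by
      rw [hm, Finset.mul_prod_erase _ (fun q => q) hpJ]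
    have hpE : ¬ (p : ℤ) ∣ (E : ℤ) := by
      rw [hE]
      exact ndvd_prod (fun q hq => Nat.prime_of_mem_primeFactors (mem_of_mem_erase hq)) hp
        (notMem_erase p _)
    have hpm : ¬ (p : ℤ) ∣ (m : ℤ) := by
      rw [hm]
      exact ndvd_prod (fun q hq => hJp q (mem_of_mem_erase hq)) hp (notMem_erase p _)
    refine s5 hp7 E m (by rw [hDE]; push_cast; ring) (by rw [hJm]; push_cast; ring) hpE hpm ?_
    rcases hodd with ho | ho
    · obtain ⟨t, ht⟩ := hs7
      refine ⟨t, by rw [ht]; ring, ?_⟩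
      have hty : ty p = 2 := by
        unfold ty
        rw [c2 p hpJ, if_neg (by omega)]
      have := c5 p hpJ hty t (by rw [ht]; ring)
      rw [← hE, ← hm] at this
      push_cast at this ⊢
      exact this
    · exact choose_t ho hs7 _
  · have hnd := ndvd_prod hJp hp hpJ
    by_cases hs7 : IsSquare (-7 : ZMod p)
    · have hm := (sq7 hP).1 hs7
      rcases hodd with ho | ho
      · refine s2 hD0 hnd ?_
        rw [Int.cast_natCast]
        exact c4 p hpD (by unfold ty; rw [hm, if_neg (by omega)]) hpJ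
      · exact s4 hD0 ho hp7 hs7 hnd
    · have hm : m7 p = 0 := by
        have h1 := m7_le p
        have h2 : m7 p ≠ 1 := fun h => hs7 ((sq7 hP).2 h)
        omega
      rcases hodd with ho | ho
      · exact s3 hD0 hs7 ho hnd
      · refine s2 hD0 hnd ?_
        rw [Int.cast_natCast]
        exact c3 p hpD (by unfold ty; rw [hm, if_pos ho])

end

end Pool.Agent.N818.SL
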